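import Pool.Agent.V7H14.EM.Def

/-!
# Étale motivic cohomology in the top weight: the known exact sequence
-/

set_option autoImplicit false

namespace Pool.Agent.V7H14.EM

theorem subsingleton_of_fg {V : Type} [AddCommGroup V] [Module ℚ V] (h : AddGroup.FG V) :
    Subsingleton V := by
  have h1 : Module.Finite ℤ V := Module.Finite.iff_addGroup_fg.2 h
  have h2 : (⊤ : Submodule ℤ V).FG := Module.finite_def.1 h1
  have h3 : (⊤ : Submodule ℤ V) ≤ (Ideal.span {(2 : ℤ)}) • (⊤ : Submodule ℤ V) := by
    intro v _
    have h4 : v = (2 : ℤ) • ((1 / 2 : ℚ) • v) := by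
      rw [← Int.cast_smul_eq_zsmul ℚ, smul_smul]
      norm_num
    rw [h4]
    exact Submodule.smul_mem_smul (Ideal.mem_span_singleton_self 2) trivial
  obtain ⟨r, hr, hr2⟩ := Submodule.exists_sub_one_mem_and_smul_eq_zero_of_fg_of_le_smul
    (Ideal.span {(2 : ℤ)}) ⊤ h2 h3
  have hr0 : (r : ℚ) ≠ 0 := by
    intro h0
    have h0' : r = 0 := by exact_mod_cast h0
    rw [h0', Ideal.mem_span_singleton] at hr
    omega
  refine ⟨fun v w => ?_⟩
  have h5 : ∀ v : V, v = 0 := by
    intro v
    have h6 := hr2 v trivial
    rw [← Int.cast_smul_eq_zsmul ℚ] at h6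
    exact (smul_eq_zero.1 h6).resolve_left hr0
  rw [h5 v, h5 w]

/-- The groups are finitely generated if and only if the rational motivic cohomology vanishes in the degrees
smaller than `2 n`. -/
theorem allFG_iff {n : ℤ} {V : ℤ → Type} [∀ i, AddCommGroup (V i)] [∀ i, Module ℚ (V i)]
    (X : EtaleTop n V) : X.AllFG ↔ ∀ i, i < 2 * n → Subsingleton (V i) := by
  constructor
  · intro h i hi
    have hf := X.finite i hi
    have h1 : Function.Surjective (X.b i) := by
      intro v
      rw [← X.exactV i v]
      have h2 : 0 < Nat.card (X.F i) := Nat.card_pos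
      have h3 : v = Nat.card (X.F i) • ((1 / (Nat.card (X.F i) : ℚ)) • v) := by
        rw [← Nat.cast_smul_eq_nsmul ℚ, smul_smul, mul_one_div_cancel, one_smul]
        exact_mod_cast h2.ne'
      rw [h3, map_nsmul]
      exact card_nsmul_eq_zero'
    have h2 : AddGroup.FG (X.H i) := h i hi.le
    exact subsingleton_of_fg (AddGroup.fg_of_surjective h1)
  · intro h i hi
    rcases lt_or_eq_of_le hi with h1 | h1
    · have hf := X.finite (i - 1) (by omega)
      have h2 : Function.Surjective (X.a i) := by
        intro x
        have h3 := h i h1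
        exact X.exactH i x (Subsingleton.elim _ _)
      have h3 : Finite (X.H i) := Finite.of_surjective _ h2
      exact AddGroup.fg_of_finite
    · rw [h1]
      exact X.top

end Pool.Agent.V7H14.EM
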