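import Pool.Agent.Y156.L.Thms
import Pool.Agent.V7H14.EM.Top

/-!
# Finite generation of étale motivic cohomology for products with abelian varieties: the property
-/

set_option autoImplicit false

namespace Pool.Agent.V7H14.EM

open Module Polynomial Pool.Agent.Y156.L Pool.Agent.W484.TB Pool.Agent.W484.HS Pool.Agent.W521.Frob
  Pool.Agent.W521.Count Pool.Agent.W521.Bad Pool.Agent.W521.Descent Pool.Agent.W521.Density

theorem subsingleton_iff {M : Type*} [AddCommGroup M] [Module ℚ M] (S : Submodule ℚ M) :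
    Subsingleton S ↔ S = ⊥ := Submodule.subsingleton_iff_eq_bot

theorem etale_of_parshin {E : IntermediateField ℚ ℂ} {q r : ℕ} {I : Type} {f : I → ℤ[X]}
    (h : ParshinForRankOver E q r f) : EtaleForRankOver E q r f := by
  intro K _ _ A s hA T hT hpure hrank d X P
  obtain ⟨J, hJ, c, D, hF, hmain⟩ := h K A s hA
  obtain ⟨-, hpar⟩ := hmain T hT hpure hrank
  have hX : X.AllFG ↔ ∀ i : ℤ, i < 2 * ((A.dim + d : ℕ) : ℤ) → ∀ k : ℕ, k ≤ A.dim →
      T.grN (i - 2 * k) (((A.dim + d : ℕ) : ℤ) - k) = ⊥ := by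
    rw [allFG_iff]
    refine forall_congr' fun i => forall_congr' fun hi => ?_
    rw [subsingleton_iff, hpar]
  have hP : P.AllFG ↔ ∀ i : ℤ, i < 2 * ((A.dim + d : ℕ) : ℤ) → ∀ k : ℕ, k ≤ A.dim →
      T.grN (i - 2 * k) (((A.dim + d : ℕ) : ℤ) - k) = ⊥ := by
    rw [allFG_iff]
    refine forall_congr' fun i => forall_congr' fun hi => ?_
    constructor
    · intro h1 k hk
      rw [← subsingleton_iff]
      refine ⟨fun v w => ?_⟩
      have h2 := congrFun (h1.elim (Pi.single (⟨k, by omega⟩ : Fin (A.dim + 1)) v)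
        (Pi.single (⟨k, by omega⟩ : Fin (A.dim + 1)) w)) ⟨k, by omega⟩
      rw [Pi.single_eq_same, Pi.single_eq_same] at h2
      exact h2
    · intro h1
      refine ⟨fun v w => ?_⟩
      funext k
      have h2 := (subsingleton_iff _).2 (h1 (k : ℕ) (by omega))
      exact h2.elim _ _
  refine ⟨hX.trans hP.symm, hX.trans ?_⟩
  constructor
  · intro h1 k hk i hi z hz
    have h2 := h1 (i + 2 * ((A.dim - k : ℕ) : ℤ)) (by push_cast [Nat.cast_sub hk] at *; linarith)
      (A.dim - k) (by omega)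
    have h3 : (i + 2 * ((A.dim - k : ℕ) : ℤ)) - 2 * ((A.dim - k : ℕ) : ℤ) = i := by ring
    have h4 : ((A.dim + d : ℕ) : ℤ) - ((A.dim - k : ℕ) : ℤ) = (d + k : ℕ) := by
      push_cast [Nat.cast_sub hk]
      ring
    rw [h3, h4] at h2
    have h5 : z ∈ T.grN i (d + k : ℕ) := hz
    rw [h2] at h5
    exact (Submodule.mem_bot ℚ).1 h5
  · intro h1 i hi k hk
    rw [Submodule.eq_bot_iff]
    intro z hz
    refine h1 (A.dim - k) (by omega) (i - 2 * k) ?_ z ?_
    · push_cast [Nat.cast_sub hk] at *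
      linarith
    · have h4 : ((d + (A.dim - k) : ℕ) : ℤ) = ((A.dim + d : ℕ) : ℤ) - k := by
        push_cast [Nat.cast_sub hk]
        ring
      rw [h4]
      exact hz

theorem etale_of_good {I : Type} [Finite I] (g : I → ℕ) (E : IntermediateField ℚ ℂ)
    [FiniteDimensional ℚ E] {q : ℕ} (hq : 1 < q) (r : ℕ) (hr : ∀ i, r < g i)
    (x : (Σ i, Fin (g i)) → ℤ) (hx : GoodU (splitPrimes E) g q x) :
    EtaleForRankOver E q r (fun i => weil q (polys g x i)) :=
  etale_of_parshin (parshin_of_good g E hq r hr x hx)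

end Pool.Agent.V7H14.EM
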