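import Mathlib
import Pool.Agent.Y156.L.Defs

/-!
# Finite generation of étale motivic cohomology in the top weight: definitions
-/

set_option autoImplicit false

namespace Pool.Agent.V7H14.EM

open Polynomial Pool.Agent.Y156.L

/-- Étale motivic cohomology of a smooth projective variety `W` of dimension `n` over a finite field in the
weight `n`, where `V i` is the rational motivic cohomology `H^i(W, ℚ(n))`: the groups
`H i = H^i(W_et, ℤ(n))` and `F i = H^i(W_et, ℚ/ℤ(n))` with the exact sequence
`F (i - 1) → H i → V i → F i`. Known theorems: for `i < 2 n` the group `F i` is finite (Deligne;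
Colliot-Thélène, Sansuc, Soulé; Gros, Suwa), and `H (2 n)` is finitely generated (unramified class field
theory: Bloch, Kato, Saito). -/
structure EtaleTop (n : ℤ) (V : ℤ → Type) [∀ i, AddCommGroup (V i)] where
  /-- the étale motivic cohomology -/
  H : ℤ → Type
  /-- the étale cohomology with torsion coefficients -/
  F : ℤ → Type
  [groupH : ∀ i, AddCommGroup (H i)]
  [groupF : ∀ i, AddCommGroup (F i)]
  a : ∀ i, F (i - 1) →+ H i
  b : ∀ i, H i →+ V i
  c : ∀ i, V i →+ F i
  exactH : ∀ i x, b i x = 0 → ∃ y, a i y = x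
  exactV : ∀ i v, c i v = 0 ↔ ∃ x, b i x = v
  finite : ∀ i, i < 2 * n → Finite (F i)
  top : AddGroup.FG (H (2 * n))

attribute [instance] EtaleTop.groupH EtaleTop.groupF

/-- Question Q1 for `W`: the group `H^i(W_et, ℤ(n))`, `n` the dimension of `W`, is finitely generated for all
`i ≤ 2 n`. -/
def EtaleTop.AllFG {n : ℤ} {V : ℤ → Type} [∀ i, AddCommGroup (V i)] (X : EtaleTop n V) : Prop :=
  ∀ i, i ≤ 2 * n → AddGroup.FG (X.H i)

section

variable {K : Type} [Field K] {A : AbelianData K}

/-- The étale motivic cohomology in the weight `n = dim A + d` of `A × Z`, `Z` of dimension `d`: the rational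
motivic cohomology is `H^i(A × Z, ℚ(n))`. -/
abbrev OfProduct (T : RelData A) (d : ℕ) : Type 1 :=
  EtaleTop ((A.dim + d : ℕ) : ℤ) fun i => T.grM i ((A.dim + d : ℕ) : ℤ)

/-- The étale motivic cohomology in the weight `n = dim A + d` of `ℙ^(dim A) × Z`, `Z` of dimension `d`: the
rational motivic cohomology is `⨁ H^(i - 2 k)(Z, ℚ(n - k))`, `0 ≤ k ≤ dim A`. -/
abbrev OfProjective (T : RelData A) (d : ℕ) : Type 1 :=
  EtaleTop ((A.dim + d : ℕ) : ℤ) fun i => (k : Fin (A.dim + 1)) →
    T.grN (i - 2 * (k : ℕ)) (((A.dim + d : ℕ) : ℤ) - (k : ℕ))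

end

/-- `EtaleForRankOver E q r f`: the following holds for every abelian variety `A` as in `IsAbelian` (over the
field with `q ^ s` elements, isogenous to a product of powers of abelian varieties coming from the field with
`q` elements with characteristic polynomials `f i`), every smooth projective `Z` of any dimension `d`, with
rational motivic cohomology `T` (of `Z` and `A × Z`, with the formal properties, pure, and of rank at most `r`
over `E`), and the étale motivic cohomology groups of `A × Z` and of `ℙ^g × Z`, `g = dim A`: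

* the groups `H^i((A × Z)_et, ℤ(g + d))` are finitely generated for all `i ≤ 2 (g + d)` if and only if the groups
  `H^i((ℙ^g × Z)_et, ℤ(g + d))` are finitely generated for all `i ≤ 2 (g + d)`;
* this is the case if and only if the groups `H^i(Z, ℚ(d + k))` are zero for all `0 ≤ k ≤ g` and
  `i < 2 (d + k)`. -/
def EtaleForRankOver (E : IntermediateField ℚ ℂ) (q r : ℕ) {I : Type} (f : I → ℤ[X]) : Prop :=
  ∀ (K : Type) [Field K] [CharZero K] (A : AbelianData K) (s : ℕ), IsAbelian A q s f →
    ∀ T : RelData A, IsRel (q ^ s) T → T.IsPure (q ^ s) → T.HasRank (q ^ s) E r →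
      ∀ (d : ℕ) (X : OfProduct T d) (P : OfProjective T d),
        (X.AllFG ↔ P.AllFG) ∧
        (X.AllFG ↔ ∀ k : ℕ, k ≤ A.dim → ∀ i : ℤ, i < 2 * (d + k : ℕ) →
          ∀ z : T.N, T.DegN i (d + k : ℕ) z → z = 0)

end Pool.Agent.V7H14.EM
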